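import Mathlib
import Pool.Agent.Helper61_Gamma.Low

/-!
# MP_9a4f8a_co, THEOREM A (exact threshold `3p` for all large second characteristics)

Let `p` be prime, `K` a field, `M` a simple rank 3 matroid with `n > 3p` points, representable over
`GF(p)` and `K`, `w ≥ 1` with `char K = 0` or `3 char K > 4 w n`.  Then
`w^2 n (n - 3p) ≤ 3 (n-1)^2`.  (`n = 3p+1`, `w^2 ≥ 9p` : contradiction.)

Coordinates: the `n` points are lines `x = m P * y + c P` (`P : Fin n`) of the affine plane over an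
infinite field `K`, slopes `m P` distinct; `u_P = (1, -m P, -c P)`.  `K[X][X]` is `K[y][x]`
(outer variable `x`, inner variable `y`).  `ν = 2 w`.

Proof in words.
* `EE m c ν j` = triples `θ` of polynomials in one variable of degree `< j` with
  `(t - m P)^ν ∣ u_P · θ`.  `finrank = (j - a1) + (j - a2) + (j - a3)` with `a1 ≤ a2 ≤ a3`,
  `a1 + a2 + a3 = n ν` (SEQ, EDA, EDB) and `a2 + 1 ≤ a1 + n`, `a3 + 1 ≤ a2 + n` (GPA, GPB; this is
  where the characteristic is used).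
* `MM m c ν d` = triples of polynomials of total degree `< d` with
  `(x - m P y - c P)^ν ∣ u_P · θ`.  Leading forms: `finrank MM (d+1) ≤ finrank MM d + finrank EE (d+1)`
  (LDF).  Counting conditions: lower bound LOW.
* Comparison of both for `d → ∞` (NUM).
-/

set_option autoImplicit false

namespace Pool.Agent.BOG

open Polynomial Finset
open Pool.Agent.Helper61_Gamma (IsSimple RepOver Dt)

universe u v

section defs
variable {K : Type v} [Field K]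

/-- `u_P · θ`, one variable -/
noncomputable def dot1 (m c : K) (θ : Fin 3 → K[X]) : K[X] := θ 0 - C m * θ 1 - C c * θ 2

/-- triples of polynomials of degree `< j` with `(X - m P)^ν ∣ u_P · θ` for all `P` -/
noncomputable def EE {n : ℕ} (m c : Fin n → K) (ν j : ℕ) : Submodule K (Fin 3 → K[X]) where
  carrier := {θ | (∀ a, θ a ∈ degreeLT K j) ∧ ∀ P, (X - C (m P)) ^ ν ∣ dot1 (m P) (c P) θ}
  zero_mem' := by
    refine ⟨fun a => Submodule.zero_mem _, fun P => ?_⟩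
    simp [dot1]
  add_mem' := by
    rintro a b ⟨ha1, ha2⟩ ⟨hb1, hb2⟩
    refine ⟨fun i => Submodule.add_mem _ (ha1 i) (hb1 i), fun P => ?_⟩
    have : dot1 (m P) (c P) (a + b) = dot1 (m P) (c P) a + dot1 (m P) (c P) b := by
      simp only [dot1, Pi.add_apply]
      ring
    rw [this]
    exact dvd_add (ha2 P) (hb2 P)
  smul_mem' := by
    rintro r a ⟨ha1, ha2⟩
    refine ⟨fun i => Submodule.smul_mem _ r (ha1 i), fun P => ?_⟩
    have : dot1 (m P) (c P) (r • a) = C r * dot1 (m P) (c P) a := by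
      simp only [dot1, Pi.smul_apply, smul_eq_C_mul]
      ring
    rw [this]
    exact Dvd.dvd.mul_left (ha2 P) _

variable (K) in
/-- polynomials in `K[y][x]` of total degree `< d` -/
noncomputable def TD (d : ℕ) : Submodule K K[X][X] where
  carrier := {F | ∀ i, F.coeff i ∈ degreeLT K (d - i)}
  zero_mem' := by
    intro i
    simp
  add_mem' := by
    intro a b ha hb i
    rw [coeff_add]
    exact Submodule.add_mem _ (ha i) (hb i)
  smul_mem' := by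
    intro r a ha i
    rw [coeff_smul]
    exact Submodule.smul_mem _ r (ha i)

/-- the line `x - m y - c` in `K[y][x]` -/
noncomputable def lin2 (m c : K) : K[X][X] := X - C (C m * X + C c)

/-- `u_P · θ`, two variables -/
noncomputable def dot2 (m c : K) (θ : Fin 3 → K[X][X]) : K[X][X] :=
  θ 0 - C (C m) * θ 1 - C (C c) * θ 2

/-- triples of polynomials of total degree `< d` with `lin2 ^ ν ∣ u_P · θ` for all `P` -/
noncomputable def MM {n : ℕ} (m c : Fin n → K) (ν d : ℕ) : Submodule K (Fin 3 → K[X][X]) where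
  carrier := {θ | (∀ a, θ a ∈ TD K d) ∧ ∀ P, lin2 (m P) (c P) ^ ν ∣ dot2 (m P) (c P) θ}
  zero_mem' := by
    refine ⟨fun a => Submodule.zero_mem _, fun P => ?_⟩
    simp [dot2]
  add_mem' := by
    rintro a b ⟨ha1, ha2⟩ ⟨hb1, hb2⟩
    refine ⟨fun i => Submodule.add_mem _ (ha1 i) (hb1 i), fun P => ?_⟩
    have : dot2 (m P) (c P) (a + b) = dot2 (m P) (c P) a + dot2 (m P) (c P) b := by
      simp only [dot2, Pi.add_apply]
      ring
    rw [this]
    exact dvd_add (ha2 P) (hb2 P)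
  smul_mem' := by
    rintro r a ⟨ha1, ha2⟩
    refine ⟨fun i => Submodule.smul_mem _ r (ha1 i), fun P => ?_⟩
    have : dot2 (m P) (c P) (r • a) = C (C r) * dot2 (m P) (c P) a := by
      have h : ∀ F : K[X][X], r • F = C (C r) * F := by
        intro F
        ext i j
        simp [coeff_C_mul, smul_eq_C_mul]
      simp only [dot2, Pi.smul_apply, h]
      ring
    rw [this]
    exact Dvd.dvd.mul_left (ha2 P) _

/-- the point `X` lies on the line `x = m y + c` -/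
def On (X : K × K) (m c : K) : Prop := X.1 = m * X.2 + c

/-- the lines `P, Q, R` are concurrent (`det (u_P, u_Q, u_R) = 0`) -/
def Conc {n : ℕ} (m c : Fin n → K) (P Q R : Fin n) : Prop :=
  (m Q - m P) * (c R - c P) = (m R - m P) * (c Q - c P)

/-- every line `P` carries at most `k + 1` intersection points with the others: among any `k + 2`
lines two meet `P` in the same point (or one of them is `P`, or two are equal) -/
def Hk {n : ℕ} (m c : Fin n → K) (k : ℕ) : Prop :=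
  ∀ (P : Fin n) (f : Fin (k + 2) → Fin n), ∃ i j, i ≠ j ∧ Conc m c P (f i) (f j)

/-- `F` vanishes to order `J` at the point `(x0, y0)` -/
def Van (J : ℕ) (X : K × K) (F : K[X][X]) : Prop :=
  ∀ a < J, (Polynomial.X - C X.2) ^ (J - a) ∣ (taylor (C X.1) F).coeff a

open Classical in
/-- number of lines through the point `X` -/
noncomputable def rr {n : ℕ} (m c : Fin n → K) (X : K × K) : ℕ :=
  (univ.filter fun P => On X (m P) (c P)).card

open Classical in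
/-- the points of `S` on the line `P` -/
noncomputable def onP {n : ℕ} (m c : Fin n → K) (S : Finset (K × K)) (P : Fin n) : Finset (K × K) :=
  S.filter fun X => On X (m P) (c P)

end defs

/-! ## One variable -/

/-- Row SEQ.  Only Mathlib.  `δ j = H (j+1) - H j` is nondecreasing (second hypothesis), `≤ 3`,
`= 3` for `j ≥ s`.  `a_i = #{j | δ j < i}`, `i = 1, 2, 3` (all `≤ s`), so `δ j = #{i | a_i ≤ j}`
and `H j = ∑_{l < j} δ l = ∑_i (j - a_i)`.  For `j = s`: `H s = 2 s = 3 s - ∑ a_i`. -/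
def SeqStmt : Prop := ∀ (H : ℕ → ℕ) (s : ℕ), H 0 = 0 → (∀ j, H (j + 1) ≤ H j + 3) →
  (∀ j, 2 * H (j + 1) ≤ H (j + 2) + H j) → (∀ j, s ≤ j → H j + s = 3 * j) →
  ∃ a1 a2 a3, a1 ≤ a2 ∧ a2 ≤ a3 ∧ a1 + a2 + a3 = s ∧
    ∀ j, H j = (j - a1) + (j - a2) + (j - a3)

/-- Row FDM.  `EE ≤ Submodule.pi univ (degreeLT K j)`, `MM ≤ pi (TD K d)` are finite dimensional
(`degreeLTEquiv`; `TD K d` is isomorphic to `∏_{i < d} degreeLT K (d - i)` by the coefficients, so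
its dimension is `∑_{i<d} (d - i) = (d+1 choose 2)`). -/
def FdmStmt.{v'} : Prop := ∀ (K : Type v') [Field K] (n : ℕ) (m c : Fin n → K) (ν j : ℕ),
  Module.Finite K (EE m c ν j) ∧ Module.Finite K (MM m c ν j) ∧ Module.Finite K (TD K j) ∧
    Module.finrank K (TD K j) = (j + 1).choose 2

/-- Row EDA (uses FDM for finiteness).  (1) `EE 0 = ⊥`.  (2) The linear map `θ ↦ (coeff j (θ a))_a`,
`EE (j+1) → (Fin 3 → K)` has kernel `EE j`.  (3) `EE (j+1)` and `X • EE (j+1)` are subspaces of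
`EE (j+2)` of dimension `H (j+1)`, and their intersection is contained in `X • EE j`
(`X φ` of degree `< j+1` with `φ ∈ EE (j+1)` gives `deg φ < j`): use
`Submodule.finrank_sup_add_finrank_inf_eq`. -/
def EdaStmt.{v'} : Prop := ∀ (K : Type v') [Field K] (n : ℕ) (m c : Fin n → K) (ν : ℕ),
  Module.finrank K (EE m c ν 0) = 0 ∧
  (∀ j, Module.finrank K (EE m c ν (j + 1)) ≤ Module.finrank K (EE m c ν j) + 3) ∧
  (∀ j, 2 * Module.finrank K (EE m c ν (j + 1)) ≤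
    Module.finrank K (EE m c ν (j + 2)) + Module.finrank K (EE m c ν j))

/-- Row EDB (uses FDM for finiteness).  Let `Q = ∏ P, (X - C (m P))^ν`, monic of degree `n ν`.
Chinese remainder theorem (the `(X - C (m P))^ν` are pairwise coprime): there are `μ, γ : K[X]` with
`μ ≡ m P`, `γ ≡ c P mod (X - C (m P))^ν` for all `P`.  For `j ≥ n ν` the linear map
`θ ↦ (θ 1, θ 2)`, `EE j → degreeLT K j × degreeLT K j` is surjective
(`θ 0 = (μ θ 1 + γ θ 2) %ₘ Q`) and its kernel is `{(f, 0, 0) | Q ∣ f, deg f < j}`, of dimension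
`j - n ν`. -/
def EdbStmt.{v'} : Prop := ∀ (K : Type v') [Field K] (n : ℕ) (m c : Fin n → K) (ν : ℕ),
  Function.Injective m → ∀ j, n * ν ≤ j →
    Module.finrank K (EE m c ν j) + n * ν = 3 * j

/-- Row CST (only Mathlib).  Choose `i0` with `κ i0 ≠ 0` of maximal degree `e ≤ D`,
`λ a = coeff e (κ a) / leadingCoeff (κ i0)`, `σ = κ a - λ a κ i0`: `deg σ < e` or `σ = 0`, and
`σ' κ i0 = σ (κ i0)'`.  If `σ ≠ 0` has degree `f < e` the coefficient of `X^(f+e-1)` of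
`σ (κ i0)' - σ' κ i0` is `(e - f) lc lc ≠ 0`.  So `κ a = C (λ a) * κ i0`. -/
def CstStmt.{v'} : Prop := ∀ (K : Type v') [Field K] (κ : Fin 3 → K[X]) (D : ℕ), κ ≠ 0 →
  (∀ a, (κ a).natDegree ≤ D) → (∀ q : ℕ, 0 < q → q ≤ D → (q : K) ≠ 0) →
  (∀ a b, derivative (κ a) * κ b = κ a * derivative (κ b)) →
  ∃ (w : Fin 3 → K) (g : K[X]), w ≠ 0 ∧ g ≠ 0 ∧ ∀ a, κ a = C (w a) * g

/-- Row DER (only Mathlib).  `u · θ = (X - m)^ν q` gives `u · θ' = (X - m)^(ν-1) (ν q + (X-m) q')`,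
and `∏ P (X - C (m P))` contains one more factor. The degree of `θ'` drops by one (also `ν = 0`
is fine). -/
def DerStmt.{v'} : Prop := ∀ (K : Type v') [Field K] (n : ℕ) (m c : Fin n → K) (ν j : ℕ)
  (θ : Fin 3 → K[X]), θ ∈ EE m c ν (j + 1) →
  (fun a => (∏ P, (X - C (m P))) * derivative (θ a)) ∈ EE m c ν (j + n)

/-- Row STA (structure below `a2`; uses FDM).  `finrank (EE (a1+1)) ≥ 1`: choose `θ ≠ 0` in it.
For `j < a2 + 1`, i.e. `j ≤ a2`, the multiples `q θ`, `deg q < j - a1`, form a subspace of `EE j` of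
dimension `j - a1 = finrank (EE j)` (both are `0` if `j ≤ a1`), so it is everything. -/
def StaStmt.{v'} : Prop := ∀ (K : Type v') [Field K] (n : ℕ) (m c : Fin n → K)
  (ν a1 a2 a3 : ℕ), a1 ≤ a2 → a2 ≤ a3 →
  (∀ j, Module.finrank K (EE m c ν j) = (j - a1) + (j - a2) + (j - a3)) →
  ∃ θ ∈ EE m c ν (a1 + 1), θ ≠ 0 ∧
    ∀ j ≤ a2, ∀ φ ∈ EE m c ν j, ∃ q : K[X], ∀ a, φ a = q * θ a

/-- Row STB (structure below `a3`; uses FDM, STA).  `θ1 = θ` from STA (`EE a1 = ⊥` by dimension, so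
`θ1` has degree exactly `a1`).  If `a1 < a2` or not, `finrank (EE (a2+1)) > a2 + 1 - a1`, so there is
`θ2 ∈ EE (a2+1)` which is not `q θ1` with `deg q < a2 + 1 - a1`.  INDEPENDENCE: suppose
`r θ2 = q θ1`, `(q, r) ≠ 0`, WLOG `q, r` coprime; `r ≠ 0` as `θ1 ≠ 0`, and `r ∣ θ1`,
`θ1 = r φ`, `θ2 = q φ`; `(X - m P)^ν` divides `r (u_P · φ)` and `q (u_P · φ)`, hence `u_P · φ`; so
`φ ∈ EE (a1 + 1 - deg r)`, and `EE a1 = ⊥` gives `deg r = 0`, so `θ2` is a multiple of `θ1`, with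
`deg q = deg θ2 - a1 ≤ a2 - a1`, contradiction.  Hence `κ = θ1 × θ2 ≠ 0` (if all `2 × 2` minors
vanish, `θ1 b θ2 = θ2 b θ1` for an index `b` with `θ1 b ≠ 0`).  For `j ≤ a3` the sums
`q1 θ1 + q2 θ2`, `deg q1 < j - a1`, `deg q2 < j - a2`, form a subspace of `EE j` of dimension
`(j - a1) + (j - a2)`. -/
def StbStmt.{v'} : Prop := ∀ (K : Type v') [Field K] (n : ℕ) (m c : Fin n → K)
  (ν a1 a2 a3 : ℕ), a1 ≤ a2 → a2 ≤ a3 →
  (∀ j, Module.finrank K (EE m c ν j) = (j - a1) + (j - a2) + (j - a3)) →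
  ∃ θ1 ∈ EE m c ν (a1 + 1), ∃ θ2 ∈ EE m c ν (a2 + 1),
    (∃ a b, θ1 a * θ2 b ≠ θ1 b * θ2 a) ∧
    ∀ j ≤ a3, ∀ φ ∈ EE m c ν j, ∃ q1 q2 : K[X], ∀ a, φ a = q1 * θ1 a + q2 * θ2 a

/-- Row GPA (uses STA, DER, CST).  Suppose `a1 + n ≤ a2`.  `θ` from STA, `φ = Π θ' ∈ EE (a1 + n)`
(DER), so `Π θ' = q θ` (STA), hence `θ a' θ b = θ a θ b'` (`Π ≠ 0`), and by CST (`D = a1`,
`3 a1 ≤ n ν`) `θ a = C (w a) g`.  `u_P · θ = (w 0 - m P w 1 - c P w 2) g`: for all `P` outside the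
set of the hypothesis `(X - m P)^ν ∣ g`, so `(n - k - 1) ν ≤ deg g ≤ a1 ≤ n ν / 3`, i.e.
`3 (n - k - 1) ≤ n` (`ν ≥ 1`), contradiction with `3 k < n`, `1 ≤ k`. -/
def GpaStmt.{v'} : Prop := ∀ (K : Type v') [Field K] (n k : ℕ) (m c : Fin n → K)
  (ν a1 a2 a3 : ℕ), Function.Injective m → 1 ≤ k → 3 * k < n → 1 ≤ ν → a1 ≤ a2 → a2 ≤ a3 →
  a1 + a2 + a3 = n * ν →
  (∀ j, Module.finrank K (EE m c ν j) = (j - a1) + (j - a2) + (j - a3)) →
  (∀ q : ℕ, 0 < q → 3 * q ≤ 2 * (n * ν) → (q : K) ≠ 0) →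
  (∀ w : Fin 3 → K, w ≠ 0 → {P : Fin n | w 0 - m P * w 1 - c P * w 2 = 0}.ncard ≤ k + 1) →
  a2 + 1 ≤ a1 + n

/-- Row GPB (uses STB, DER, CST).  Suppose `a2 + n ≤ a3`.  `θ1, θ2` from STB, `κ = θ1 × θ2 ≠ 0`,
`deg κ ≤ a1 + a2`, `3 (a1 + a2) ≤ 2 n ν`.  `Π θ1' ∈ EE (a1 + n)`, `Π θ2' ∈ EE (a2 + n)` (DER) are
combinations `q11 θ1 + q12 θ2`, `q21 θ1 + q22 θ2` (STB), so `Π κ' = (q11 + q22) κ` and
`κ a' κ b = κ a κ b'`; CST: `κ a = C (w a) g`.  For every `P`: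
`u_P × κ = θ1 (u_P · θ2) - θ2 (u_P · θ1)` is divisible by `(X - m P)^ν`, and
`u_P × κ = g (u_P × w)`; if `u_P × w ≠ 0` then `(X - m P)^ν ∣ g`.  `u_P × w = 0` for at most one `P`
(`m` injective).  So `(n - 1) ν ≤ deg g ≤ a1 + a2 = n ν - a3`, `a3 ≤ ν`; but `3 a3 ≥ n ν`, `n ≥ 4`. -/
def GpbStmt.{v'} : Prop := ∀ (K : Type v') [Field K] (n : ℕ) (m c : Fin n → K)
  (ν a1 a2 a3 : ℕ), Function.Injective m → 4 ≤ n → 1 ≤ ν → a1 ≤ a2 → a2 ≤ a3 →
  a1 + a2 + a3 = n * ν →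
  (∀ j, Module.finrank K (EE m c ν j) = (j - a1) + (j - a2) + (j - a3)) →
  (∀ q : ℕ, 0 < q → 3 * q ≤ 2 * (n * ν) → (q : K) ≠ 0) →
  a3 + 1 ≤ a2 + n

/-! ## Two variables -/

/-- Row LDF (uses FDM).  Leading forms: `L F = ∑_{i ≤ d} (F.coeff i).coeff (d - i) • X^i ∈ K[X]`
(degree `≤ d`) for `F ∈ TD (d+1)`; `L F = 0` iff `F ∈ TD d`.  Ring homomorphism
`Ψ : K[y][x] → K[t][Y]`, `y ↦ Y`, `x ↦ t Y`
(`eval₂RingHom (mapRingHom C) (C X * X)`): for `F ∈ TD (d+1)`: `natDegree (Ψ F) ≤ d` and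
`(Ψ F).coeff d = L F`; more precisely `coeff (i+l)` of `Ψ (a x^i y^l)` is `a t^i`, so `Ψ` is
injective and `natDegree (Ψ F)` is the total degree.  If `G = lin2^ν H ∈ TD (d+1)`, `H ≠ 0`:
`Ψ G = ((t - m) Y - c)^ν Ψ H`, `natDegree (Ψ H) = natDegree (Ψ G) - ν ≤ d - ν` and (`ν ≤ d`)
`L G = (Ψ G).coeff d = (t - m)^ν (Ψ H).coeff (d - ν)` (`coeff_mul_of_natDegree_le`), so
`(t - m P)^ν ∣ L (u_P · θ) = u_P · L θ`.  Hence `L : MM (d+1) → EE (d+1)` with kernel `MM d`. -/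
def LdfStmt.{v'} : Prop := ∀ (K : Type v') [Field K] (n : ℕ) (m c : Fin n → K) (ν : ℕ),
  Module.finrank K (MM m c ν 0) = 0 ∧
  ∀ d, Module.finrank K (MM m c ν (d + 1)) ≤
    Module.finrank K (MM m c ν d) + Module.finrank K (EE m c ν (d + 1))

/-- Row TAY (only Mathlib).  (1) `X_sub_C_pow_dvd_iff`, `X_pow_dvd_iff`, `taylor_apply`.
(2) `(taylor r F).coeff i = (hasseDeriv i F).eval r = ∑ a, (a choose i) F_a r^(a-i)`
(`taylor_coeff`, `hasseDeriv_apply`, `eval_eq_sum`), `r = m y + c` of degree `≤ 1`, `F_a` of degree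
`< d - a`.  (3) `taylor (C m * X + C c) F = taylor (C m * (X - C y0)) (taylor (C x0) F)` for
`x0 = m y0 + c` (`taylor_taylor`), so the coefficient is `∑ a, (a choose i) G_a (m (y - y0))^(a-i)`
with `(y - y0)^(J-a) ∣ G_a`: every term is divisible by `(y-y0)^(J-i)`. -/
def TayStmt.{v'} : Prop := ∀ (K : Type v') [Field K] (m c : K) (F : K[X][X]),
  (∀ ν, (lin2 m c ^ ν ∣ F ↔ ∀ i < ν, (taylor (C m * X + C c) F).coeff i = 0)) ∧
  (∀ d, F ∈ TD K d → ∀ i, (taylor (C m * X + C c) F).coeff i ∈ degreeLT K (d - i)) ∧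
  (∀ (J : ℕ) (Y : K × K), On Y m c → Van J Y F →
    ∀ i, (X - C Y.2) ^ (J - i) ∣ (taylor (C m * X + C c) F).coeff i)

/-- Row CUT (only Mathlib; induction on the finset, one map: `LinearMap.finrank_range_add_finrank_ker`
for the restriction to the submodule). -/
def CutStmt.{v', w'} : Prop := ∀ (K : Type v') [Field K] (V : Type v') [AddCommGroup V] [Module K V]
  (W : Type v') [AddCommGroup W] [Module K W] (U : Submodule K V) [Module.Finite K U]
  (σ : Type w') (s : Finset σ) (f : σ → V →ₗ[K] W) (D : σ → ℕ),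
  (∀ i ∈ s, Module.finrank K (U.map (f i)) ≤ D i) →
  Module.finrank K U ≤ Module.finrank K (U ⊓ ⨅ i ∈ s, LinearMap.ker (f i) : Submodule K V) +
    ∑ i ∈ s, D i

/-- Row VNC (uses FDM).  `Van J X F` says that the Taylor coefficients of `F` at `X` of total order
`< J` vanish: for `a < J` the linear maps
`F ↦ (taylor X.2 ((taylor (C X.1) F).coeff a)).coeff b`, `b < J - a`
(`(X - C y)^b ∣ f ↔ ∀ i < b, (taylor y f).coeff i = 0`), together `J (J+1) / 2` functionals; for the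
pair `θ 0 - x θ 2`, `θ 1 - y θ 2`: `J (J + 1)` functionals.  Every functional cuts the dimension by at
most one; induction on `S`. -/
def VncStmt.{v'} : Prop := ∀ (K : Type v') [Field K] (d : ℕ) (S : Finset (K × K)) (J : K × K → ℕ),
  ∃ U : Submodule K (Fin 3 → K[X][X]), Module.Finite K U ∧
    (∀ θ ∈ U, (∀ a, θ a ∈ TD K d) ∧ ∀ Y ∈ S, Van (J Y) Y (θ 0 - C (C Y.1) * θ 2) ∧
      Van (J Y) Y (θ 1 - C (C Y.2) * θ 2)) ∧
    3 * (d + 1).choose 2 ≤ Module.finrank K U + ∑ Y ∈ S, J Y * (J Y + 1)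

/-- Row LOW (uses TAY, CUT or an own induction, VNC, FDM).  `U` from VNC.  For a line `P` and
`Y ∈ onP m c S P` (`Y.1 = m P Y.2 + c P`):
`dot2 (m P) (c P) θ = (θ 0 - Y.1 θ 2) - m P (θ 1 - Y.2 θ 2)` vanishes to order `J Y` at `Y`, so by
TAY the `i`-th coefficient `F_i` of `taylor (C (m P) * X + C (c P)) (dot2 ..)` is divisible by
`∏ Y ∈ onP, (X - C Y.2)^(J Y - i)` (different points on `P` have different `Y.2`) and has degree
`< d - i`: it lies in a space of dimension `d - i - ∑ (J Y - i)` (hypothesis: no truncation).  The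
common kernel in `U` of these maps, `P : Fin n`, `i < ν`, is contained in `MM m c ν d` (TAY (1)). -/
def LowStmt.{v'} : Prop := ∀ (K : Type v') [Field K] (n : ℕ) (m c : Fin n → K) (ν d : ℕ)
  (S : Finset (K × K)) (J : K × K → ℕ),
  (∀ P, ∀ i < ν, i + ∑ Y ∈ onP m c S P, (J Y - i) ≤ d) →
  3 * (d + 1).choose 2 ≤ Module.finrank K (MM m c ν d) + ∑ Y ∈ S, J Y * (J Y + 1) +
    ∑ P, ∑ i ∈ range ν, (d - i - ∑ Y ∈ onP m c S P, (J Y - i))

/-! ## Combinatorics -/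

/-- Row PTS.  `S` = the intersection points of the pairs `P ≠ Q`
(`y = (c Q - c P) / (m P - m Q)`, `x = m P y + c P`).  Every ordered pair `P ≠ Q` has exactly one
point of `S` on both (`m` injective): count ordered pairs. -/
def PtsStmt.{v'} : Prop := ∀ (K : Type v') [Field K] (n : ℕ) (m c : Fin n → K),
  Function.Injective m → ∃ S : Finset (K × K),
    (∀ Y ∈ S, 2 ≤ rr m c Y) ∧ (∀ P Q, P ≠ Q → ∃ Y ∈ S, On Y (m P) (c P) ∧ On Y (m Q) (c Q)) ∧
    ∑ Y ∈ S, rr m c Y * (rr m c Y - 1) = n * (n - 1)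

/-- Row INC.  `#(onP m c S P) ≤ k + 1`: otherwise choose `k + 2` different points `Y_i` of `S` on
`P` and lines `f i ≠ P` through them (`rr ≥ 2`); by `Hk` two are concurrent with `P`:
`(m Q - m P)(c R - c P) = (m R - m P)(c Q - c P)` with `m Q, m R ≠ m P` says that `Q` and `R` meet
`P` in the same point, contradiction.  Double counting:
`∑_Y rr = ∑_P #(onP P) ≤ n (k + 1)`. -/
def IncStmt.{v'} : Prop := ∀ (K : Type v') [Field K] (n k : ℕ) (m c : Fin n → K)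
  (S : Finset (K × K)), Function.Injective m → Hk m c k → (∀ Y ∈ S, 2 ≤ rr m c Y) →
  (∀ P, (onP m c S P).card ≤ k + 1) ∧ ∑ Y ∈ S, rr m c Y = ∑ P, (onP m c S P).card ∧
    ∑ Y ∈ S, rr m c Y ≤ n * (k + 1)

/-- Row RKW.  Suppose `w ≠ 0` and `k + 2` lines `f i` (`f` injective) satisfy `u · w = 0`.
There is `P` with `u_P · w ≠ 0`: otherwise all `u_P` lie in a plane and all triples are concurrent.
`Hk` for `P, f`: `i ≠ j` with `det (u_P, u_{f i}, u_{f j}) = 0`; `u_{f i}, u_{f j}` are independent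
(`m` injective) and orthogonal to `w`, so `u_P` is a combination of them and `u_P · w = 0`,
contradiction. -/
def RkwStmt.{v'} : Prop := ∀ (K : Type v') [Field K] (n k : ℕ) (m c : Fin n → K),
  Function.Injective m → Hk m c k → (∃ P Q R, ¬ Conc m c P Q R) →
  ∀ w : Fin 3 → K, w ≠ 0 → {P : Fin n | w 0 - m P * w 1 - c P * w 2 = 0}.ncard ≤ k + 1

/-- Row SUM (double counting with `J Y = w * rr Y`, `∑_P ∑_{Y ∈ onP P} g Y = ∑_Y rr Y * g Y`; all
subtractions are exact because `rr Y ≥ 2`, `i < 2 w`, and by the hypothesis on `d`; compute in `ℤ`):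
`∑_P ∑_{i<2w} (d - i - ∑_Y (w r_Y - i)) = n (2 w d - w (2w - 1)) - ∑_Y r_Y (2 w^2 r_Y - w (2w-1))`. -/
def SumStmt.{v'} : Prop := ∀ (K : Type v') [Field K] (n : ℕ) (m c : Fin n → K) (w d : ℕ)
  (S : Finset (K × K)), (∀ Y ∈ S, 2 ≤ rr m c Y) →
  (∀ P, ∀ i < 2 * w, i + ∑ Y ∈ onP m c S P, (w * rr m c Y - i) ≤ d) →
  ((∑ P : Fin n, ∑ i ∈ range (2 * w), (d - i - ∑ Y ∈ onP m c S P, (w * rr m c Y - i)) : ℕ) : ℤ) =
    n * (2 * w * d - w * (2 * w - 1)) -
      ∑ Y ∈ S, (rr m c Y : ℤ) * (2 * w ^ 2 * rr m c Y - w * (2 * w - 1))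

/-- Row NUM (arithmetic).  `A d = ∑_{j<d} ((j+1-a1) + (j+1-a2) + (j+1-a3))
= ∑_i (d - a_i)(d - a_i + 1)/2` for `d ≥ a3`.  Hypothesis with `R2 = ∑ r^2`, `R1 = ∑ r`
(`R2 - R1 = n (n-1)`, `R1 ≤ n (k+1)`), for one `d ≥ a3`:
`3 d (d+1)/2 ≤ A d + w^2 R2 + w R1 + n (2 w d - w (2w-1)) - 2 w^2 R2 + w (2w-1) R1`.
Multiply by 2, `2 A d = 3 d (d+1) - (2 d + 1)(2 w n) + ∑ a_i^2`:
`∑ a_i^2 ≥ 2 w n + 2 n w (2w-1) + 2 w^2 R2 - 4 w^2 R1 = 4 n w^2 + 2 w^2 (n (n-1) - R1)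
≥ 2 w^2 n (n - k)`.  With `a2 = a1 + x`, `a3 = a2 + y`, `0 ≤ x, y ≤ n - 1`:
`3 ∑ a_i^2 = (2 w n)^2 + x^2 + y^2 + (x+y)^2 ≤ 4 w^2 n^2 + 6 (n-1)^2`.
So `6 w^2 n (n-k) ≤ 4 w^2 n^2 + 6 (n-1)^2`, `w^2 n (n - 3k) ≤ 3 (n-1)^2`. -/
def NumStmt : Prop := ∀ (n k w a1 a2 a3 d R1 R2 : ℕ), 1 ≤ n → a1 ≤ a2 → a2 ≤ a3 → a3 ≤ d →
  a1 + a2 + a3 = n * (2 * w) → a2 + 1 ≤ a1 + n → a3 + 1 ≤ a2 + n →
  R2 = R1 + n * (n - 1) → R1 ≤ n * (k + 1) →
  (3 * (d + 1).choose 2 : ℤ) ≤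
    ((∑ j ∈ range d, ((j + 1 - a1) + (j + 1 - a2) + (j + 1 - a3)) : ℕ) : ℤ) +
    (w ^ 2 * R2 + w * R1) + (n * (2 * w * d - w * (2 * w - 1)) -
      (2 * w ^ 2 * R2 - w * (2 * w - 1) * R1)) →
  (w : ℤ) ^ 2 * n * (n - 3 * k) ≤ 3 * (n - 1) ^ 2

/-- Row KSD: the theorem over `K` (uses SEQ EDA EDB GPA GPB LDF LOW PTS INC RKW SUM NUM).
`ν = 2 w`.  SEQ + EDA + EDB give `a1, a2, a3`; GPA (with RKW), GPB the gaps.  `S` from PTS,
`J Y = w * rr Y`, `d` large (`≥ a3` and `≥ i + ∑ (J Y - i)` for all `P`, `i < ν`; a finite maximum).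
LDF (induction): `finrank MM d ≤ ∑_{j<d} finrank EE (j+1)`.  LOW + SUM + NUM. -/
def KsdStmt.{v'} : Prop := ∀ (K : Type v') [Field K] (n k w : ℕ) (m c : Fin n → K),
  Function.Injective m → 1 ≤ k → 3 * k < n → 1 ≤ w →
  (∀ q : ℕ, 0 < q → 3 * q ≤ 4 * w * n → (q : K) ≠ 0) →
  Hk m c k → (∃ P Q R, ¬ Conc m c P Q R) →
  (w : ℤ) ^ 2 * n * (n - 3 * k) ≤ 3 * (n - 1) ^ 2

/-! ## Geometry and assembly -/

/-- Row GEN.  Generic coordinates.  `K` infinite: there is `a : Fin 3 → K` with `a · v P ≠ 0` for all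
`P`, and `b` with `b · ((a · v Q) v P - (a · v P) v Q) ≠ 0` for all `P ≠ Q` (finitely many non-zero
vectors; `Module.Dual.exists_forall_mem_ne_zero_of_forall_exists` or a similar lemma), and `e` with
`det (a, b, e) ≠ 0` (`a, b` are independent if `n ≥ 2`; for `n ≤ 1` choose anything).  Put
`m P = - (b · v P) / (a · v P)`, `c P = - (e · v P) / (a · v P)`.  `m` is injective and
`Dt (v P) (v Q) (v R) det (a,b,e) = (a·vP)(a·vQ)(a·vR) det (u_P, u_Q, u_R)`,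
`det (u_P,u_Q,u_R) = (m Q - m P)(c R - c P) - (m R - m P)(c Q - c P)`. -/
def GenStmt.{v'} : Prop := ∀ (K : Type v') [Field K] [Infinite K] (n : ℕ) (v : Fin n → Fin 3 → K),
  (∀ P Q, P ≠ Q → LinearIndependent K ![v P, v Q]) →
  ∃ m c : Fin n → K, Function.Injective m ∧
    ∀ P Q R, (Dt (v P) (v Q) (v R) = 0 ↔ Conc m c P Q R)

/-- Row CNT.  Let `v P a0 ≠ 0`, `b0, c0` the other indices, and for a vector `x`
`x1 = x b0 v a0 - x a0 v b0`, `x2 = x c0 v a0 - x a0 v c0` (`v = v P`).  Then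
`v a0 * Dt v x y = ± (x1 y2 - x2 y1)`.  Map `Fin (p+2) → Option (ZMod p)`,
`i ↦ none` if `x1 = 0`, `some (x2 / x1)` otherwise (`x = v (f i)`): not injective (`p + 1 < p + 2`);
equal values give `x1 y2 = x2 y1`. -/
def CntStmt : Prop := ∀ (p : ℕ) [Fact p.Prime] (n : ℕ) (v : Fin n → Fin 3 → ZMod p),
  (∀ P, v P ≠ 0) → ∀ (P : Fin n) (f : Fin (p + 2) → Fin n),
    ∃ i j, i ≠ j ∧ Dt (v P) (v (f i)) (v (f j)) = 0

/-- the property in the definition of the threshold for second fields of characteristic `0` or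
`≥ L` -/
def ForcesFrom.{u', v'} (p L N : ℕ) [Fact p.Prime] : Prop :=
  ∀ (α : Type u') (M : Matroid α), IsSimple M → M.eRank = 3 → RepOver (ZMod p) M →
    (N : ℕ∞) ≤ M.E.encard → ∀ (K : Type v') [Field K], (ringChar K = 0 ∨ L ≤ ringChar K) →
      ¬ RepOver K M

/-- Row MAT (uses KSD GEN CNT).  Suppose `n ≤ M.E.encard`.  Choose `n` different points
(`Set.exists_subset_encard_eq`) containing a basis of `M` (`n > 3`), enumerated by `Fin n`.
`Pool.Agent.Helper61_Gamma.exists_coords` gives coordinates `v : Fin n → Fin 3 → ZMod p` and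
`v' : Fin n → Fin 3 → K`, mapped to `K' = AlgebraicClosure K` (infinite, same characteristic); for
three different points `Dt = 0` in both iff dependent in `M` (`linearIndepOn_iff_Dt`; if two of the
three points are equal both determinants are `0`); different points are independent vectors.  GEN for
`v'`, `Hk m c p` from CNT, the basis gives a non concurrent triple; KSD with `k = p`. -/
def MatStmt.{u', v'} : Prop := ∀ (p : ℕ) [Fact p.Prime] (n w : ℕ), 1 ≤ w → 3 * p < n →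
  (3 * (n - 1) ^ 2 : ℤ) < (w : ℤ) ^ 2 * n * (n - 3 * p) →
  ∀ (α : Type u') (M : Matroid α), IsSimple M → M.eRank = 3 → RepOver (ZMod p) M →
  ∀ (K : Type v') [Field K], (ringChar K = 0 ∨ 4 * w * n < 3 * ringChar K) → RepOver K M →
    M.E.encard < n

/-- Row DOW (lower bound; `Pool.Agent.Helper61_Gamma.Low`: `vecMatroid`, `vec_rank`, `vec_simple`,
`vec_transfer`, compare `Helper61_Gamma/Ex.lean`).  Rank 3 Dowling geometry of
`G = (ZMod p)ˣ`: points `e1, e2, e3, e1 - g e2, e2 - g e3, e1 - g e3` (`g ∈ G`), `3 + 3 (p-1) = 3 p`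
points.  `G` is cyclic of order `p - 1`, so there is an injective homomorphism `φ : G → ℂˣ`; the
vectors with `φ g` instead of `g`.  `Dt` of any three of the points is, up to sign, one of
`0, 1, g, g - h, g h, g h - l, ..`, and vanishes for `g` iff for `φ g`.  Field in universe `v'`:
`ULift ℂ`. -/
def DowStmt.{u', v'} : Prop := ∀ (p : ℕ) [Fact p.Prime], ∃ (α : Type u') (M : Matroid α),
  IsSimple M ∧ M.eRank = 3 ∧ M.E.encard = (3 * p : ℕ) ∧ RepOver (ZMod p) M ∧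
    ∃ (K : Type v') (_ : Field K), ringChar K = 0 ∧ RepOver K M

/-- Row FIN (uses MAT DOW): the result.  Second part: `n = 3p + 1`:
`w^2 (3p+1) ≥ 9p (3p+1) > 27 p^2 = 3 (n-1)^2`. -/
def FinStmt.{u', v'} : Prop := ∀ (p : ℕ) [Fact p.Prime],
  (∀ n w : ℕ, 1 ≤ w → 3 * p < n → (3 * (n - 1) ^ 2 : ℤ) < (w : ℤ) ^ 2 * n * (n - 3 * p) →
    ∀ (α : Type u') (M : Matroid α), IsSimple M → M.eRank = 3 → RepOver (ZMod p) M →
    ∀ (K : Type v') [Field K], (ringChar K = 0 ∨ 4 * w * n < 3 * ringChar K) → RepOver K M →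
      M.E.encard < n) ∧
  (∀ w L : ℕ, 9 * p ≤ w ^ 2 → 4 * w * (3 * p + 1) < 3 * L →
    IsLeast {N : ℕ | ForcesFrom.{u', v'} p L N} (3 * p + 1))

end Pool.Agent.BOG
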